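import Mathlib

/-!
Guessing sequences for disjoint types: definitions.
-/

namespace Pool.Agent.E8helper19.Gs

open Ordinal Cardinal Set

/-- A disjoint type of width `n ≥ 1`: a map `t : 2n → 2` taking the value `0` exactly `n` times.
`false` stands for `0`, `true` for `1`. -/
structure DisjType where
  width : ℕ
  one_le_width : 1 ≤ width
  val : Fin (2 * width) → Bool
  card_zeros : (Finset.univ.filter (fun i => val i = false)).card = width

/-- `HasRel a b v`: enumerating `a ∪ b` increasingly as `e 0 < e 1 < …`, the set `a` consists of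
the `e i` with `v i = 0` and `b` of the `e i` with `v i = 1`. -/
def HasRel {N : ℕ} (a b : Set Ordinal.{0}) (v : Fin N → Bool) : Prop :=
  ∃ e : Fin N → Ordinal.{0}, StrictMono e ∧
    a = {x | ∃ i, v i = false ∧ x = e i} ∧ b = {x | ∃ i, v i = true ∧ x = e i}

/-- `type(a, b) = t` or `type(a, b)` is the opposite of `t`. -/
def TypeIn (a b : Set Ordinal.{0}) (t : DisjType) : Prop :=
  HasRel a b t.val ∨ HasRel a b (fun i => !(t.val i))

/-- `p` is the `k`-th element (starting from `k = 0`) of the finite set `s`. -/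
def IsNth {N : ℕ} (s : Set (Fin N)) (k : ℕ) (p : Fin N) : Prop :=
  p ∈ s ∧ Set.ncard {q | q ∈ s ∧ q < p} = k

/-- The depth of `t`, computed for the pair `a = {i : t(i) = 0}`, `b = {i : t(i) = 1}`
(whose type is `t`): the least `k` with `a < b(k)` or `b < a(k)`. -/
noncomputable def DisjType.depth (t : DisjType) : ℕ :=
  sInf {k | (∃ p, IsNth {i | t.val i = true} k p ∧ ∀ q, t.val q = false → q < p) ∨
            (∃ p, IsNth {i | t.val i = false} k p ∧ ∀ q, t.val q = true → q < p)}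

/-- `α ∈ lim(ω₁)`. -/
def IsLim (α : Ordinal.{0}) : Prop := α < ω₁ ∧ Order.IsSuccLimit α

/-- A `C`-sequence; `C_α` is given by its increasing enumeration `C α 0 < C α 1 < …`,
which is cofinal in `α`. -/
def IsCSeq (C : Ordinal.{0} → ℕ → Ordinal.{0}) : Prop :=
  ∀ α, IsLim α → StrictMono (C α) ∧ (∀ i, C α i < α) ∧ ∀ γ < α, ∃ i, γ < C α i

/-- `C_α[n]`, the set of the first `n` elements of `C_α`. -/
def Init (C : Ordinal.{0} → ℕ → Ordinal.{0}) (α : Ordinal.{0}) (n : ℕ) : Set Ordinal.{0} :=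
  {x | ∃ i < n, x = C α i}

/-- The condition on `α, β` for the type `t`: `C_α[n]`, `C_β[n]` are disjoint and of type `t` or
the opposite of `t`, where `n` is the width of `t`. -/
def Good (C : Ordinal.{0} → ℕ → Ordinal.{0}) (t : DisjType) (α β : Ordinal.{0}) : Prop :=
  Disjoint (Init C α t.width) (Init C β t.width) ∧
    TypeIn (Init C α t.width) (Init C β t.width) t

/-- `C` is `t`-guessing. -/
def Guessing (C : Ordinal.{0} → ℕ → Ordinal.{0}) (t : ℕ → DisjType) : Prop :=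
  ∀ f : Ordinal.{0} → ℕ, ∃ α β k, IsLim α ∧ IsLim β ∧ α < β ∧ f α = k ∧ f β = k ∧
    Good C (t k) α β

/-- `C` is strongly `t`-guessing. -/
def StronglyGuessing (C : Ordinal.{0} → ℕ → Ordinal.{0}) (t : ℕ → DisjType) : Prop :=
  ∀ f : Ordinal.{0} → ℕ, ∃ β k, IsLim β ∧ f β = k ∧
    ∀ γ < β, ∃ α, γ < α ∧ α < β ∧ IsLim α ∧ f α = k ∧ Good C (t k) α β

/-- `t` has bounded depth. -/
def BoundedDepth (t : ℕ → DisjType) : Prop := ∃ d, ∀ k, (t k).depth ≤ d

/-- Closed unbounded subsets of `ω₁`. -/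
def IsClub (D : Set Ordinal.{0}) : Prop :=
  (∀ δ ∈ D, δ < ω₁) ∧ (∀ γ < ω₁, ∃ δ ∈ D, γ < δ) ∧
    ∀ η, IsLim η → (∀ γ < η, ∃ δ ∈ D, γ < δ ∧ δ < η) → η ∈ D

/-- Interval hitting: for some `C`-sequence, every club `D` meets all but finitely many of the
intervals `(C_α(m), C_α(m+1)]` for some `α`. -/
def IntervalHitting : Prop :=
  ∃ C, IsCSeq C ∧ ∀ D, IsClub D → ∃ α, IsLim α ∧ ∃ N : ℕ, ∀ m ≥ N,
    ∃ δ ∈ D, C α m < δ ∧ δ ≤ C α (m + 1)

end Pool.Agent.E8helper19.Gs
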