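import Pool.Agent.E8helper19.Gs.Pos

/-!
Interval hitting gives a `C`-sequence which is strongly `t`-guessing for every `t`: conclusion.
-/

namespace Pool.Agent.E8helper19.Gs

open Ordinal Cardinal Set

theorem count_ext_false {N : ℕ} (v : Fin N → Bool) :
    Nat.count (fun p => ext v p = false) N =
      (Finset.univ.filter (fun i => v i = false)).card := by
  rw [Nat.count_eq_card_filter_range, ← Finset.card_map Fin.valEmbedding]
  congr 1
  ext p
  simp only [Finset.mem_filter, Finset.mem_range, Finset.mem_map, Finset.mem_univ, true_and,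
    Fin.valEmbedding_apply]
  constructor
  · rintro ⟨h1, h2⟩
    rw [ext_lt v h1] at h2
    exact ⟨⟨p, h1⟩, h2, rfl⟩
  · rintro ⟨i, h1, rfl⟩
    exact ⟨i.2, by rw [ext_lt v i.2]; exact h1⟩

theorem exists_of_lt_count (P : ℕ → Prop) [DecidablePred P] {i N : ℕ} (h : i < Nat.count P N) :
    ∃ q < N, P q ∧ Nat.count P q = i := by
  induction N with
  | zero => simp at h
  | succ N ih =>
    rcases Nat.lt_or_ge i (Nat.count P N) with h1 | h1
    · obtain ⟨q, h2, h3, h4⟩ := ih h1
      exact ⟨q, by omega, h3, h4⟩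
    · rw [Nat.count_succ] at h
      by_cases h2 : P N
      · refine ⟨N, by omega, h2, ?_⟩
        simp only [h2, if_true] at h
        omega
      · simp only [h2, if_false] at h
        omega

theorem strong_of_spread {C : Ordinal.{0} → ℕ → Ordinal.{0}} {f : Ordinal.{0} → ℕ}
    {t : ℕ → DisjType} {D : Set Ordinal.{0}} (hC : IsCSeq C) (hDc : IsClub D)
    (hD : ∀ δ ∈ D, ∀ k r l, (∀ x ∈ l, x < δ) →
      (Unb (Sx C f k r l) → ∀ γ < δ, ∃ x ∈ Sx C f k r l, γ < x ∧ x < δ) ∧
      (¬ Unb (Sx C f k r l) → ∀ x ∈ Sx C f k r l, x < ω₁ → x < δ))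
    {β : Ordinal.{0}} (hβ : IsLim β) (δ : ℕ → Ordinal.{0}) (hδD : ∀ j, δ j ∈ D)
    (h1 : ∀ j, δ j ≤ C β j) (h2 : ∀ j, C β j < δ (j + 1)) :
    ∀ γ < β, ∃ α, γ < α ∧ α < β ∧ IsLim α ∧ f α = f β ∧ Good C (t (f β)) α β := by
  obtain ⟨hCm, hClt, hCcof⟩ := hC β hβ
  have hβD : β ∈ D := by
    apply hDc.2.2 β hβ
    intro γ hγ
    obtain ⟨i, hi⟩ := hCcof γ hγ
    exact ⟨δ (i + 1), hδD _, hi.trans (h2 i), (h1 _).trans_lt (hClt _)⟩
  set k := f β with hk
  set w := (t k).width with hw
  have hw1 : 1 ≤ w := (t k).one_le_width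
  have hUnb : ∀ r, r ≤ w → Unb (Sx C f k r ((List.range (w - r)).map (C β))) := by
    intro r
    induction r with
    | zero =>
      intro _
      by_contra hcon
      have h3 : ∀ x ∈ (List.range (w - 0)).map (C β), x < β := by
        intro x hx
        obtain ⟨i, -, rfl⟩ := List.mem_map.1 hx
        exact hClt i
      have h4 := (hD β hβD k 0 _ h3).2 hcon β ⟨hβ, rfl, by simp⟩ hβ.1
      exact absurd h4 (lt_irrefl _)
    | succ r ih =>
      intro hr
      by_contra hcon
      have h3 : ∀ x ∈ (List.range (w - (r + 1))).map (C β), x < δ (w - (r + 1)) := by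
        intro x hx
        obtain ⟨i, hi, rfl⟩ := List.mem_map.1 hx
        have hi' : i < w - (r + 1) := by simpa using hi
        obtain ⟨j, hj⟩ : ∃ j, w - (r + 1) = j + 1 := ⟨w - (r + 1) - 1, by omega⟩
        rw [hj] at hi' ⊢
        exact (hCm.monotone (Nat.lt_succ_iff.1 hi')).trans_lt (h2 j)
      have h5 : C β (w - (r + 1)) ∈
          Sx C f k (r + 1) ((List.range (w - (r + 1))).map (C β)) := by
        change Unb _
        have h6 : (List.range (w - (r + 1))).map (C β) ++ [C β (w - (r + 1))] =
            (List.range (w - r)).map (C β) := by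
          have : w - r = (w - (r + 1)) + 1 := by omega
          rw [this, List.range_succ, List.map_append]
          simp
        rw [h6]
        exact ih (by omega)
      have h4 := (hD _ (hδD (w - (r + 1))) k (r + 1) _ h3).2 hcon _ h5 ((hClt _).trans hβ.1)
      exact absurd h4 (h1 _).not_gt
  have hstart : Unb (Sx C f k w []) := by
    have := hUnb w le_rfl
    simpa using this
  -- choose the orientation
  have horient : ∃ v : Fin (2 * w) → Bool, v ⟨0, by omega⟩ = true ∧
      Nat.count (fun p => ext v p = false) (2 * w) = w ∧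
      (∀ a b, HasRel a b v → TypeIn a b (t k)) := by
    cases h0 : (t k).val ⟨0, by omega⟩ with
    | true =>
      refine ⟨(t k).val, h0, ?_, fun a b h => Or.inl h⟩
      have h7 := count_ext_false (t k).val
      rw [(t k).card_zeros] at h7
      exact h7
    | false =>
      refine ⟨fun i => !((t k).val i), by simp [h0], ?_, fun a b h => Or.inr h⟩
      have h7 := count_ext_false (fun i => !((t k).val i))
      have h8 : (Finset.univ.filter (fun i => (!((t k).val i)) = false)).card = w := by
        have h9 := (t k).card_zeros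
        have h10 := Finset.card_filter_add_card_filter_not (s := (Finset.univ : Finset (Fin (2 * (t k).width))))
          (fun i => (t k).val i = false)
        rw [Finset.card_univ, Fintype.card_fin, h9] at h10
        have h11 : (Finset.univ.filter (fun i => ¬ (t k).val i = false)) =
          (Finset.univ.filter (fun i => (!((t k).val i)) = false)) := by
          ext i; simp
        rw [h11] at h10
        omega
      rw [h8] at h7
      exact h7
  obtain ⟨v, hv0, hz, hvT⟩ := horient
  obtain ⟨e, he1, he2, he3, he4⟩ := build (C := C) (f := f) (k := k) hw1 hv0 hz (C β) δ h2 h1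
    (fun j r l hl hU => (hD _ (hδD j) k r l hl).1 hU) hstart
  set L := ((List.range (2 * w)).filter (fun q => ext v q = false)).map e with hL
  have hLlen : L.length = w := by
    rw [hL, List.length_map]
    have : ((List.range (2 * w)).filter (fun q => ext v q = false)).length =
        Nat.count (fun p => ext v p = false) (2 * w) := by
      rw [← List.countP_eq_length_filter]
      rfl
    rw [this, hz]
  have hLlt : ∀ x ∈ L, x < β := by
    intro x hx
    obtain ⟨q, hq, rfl⟩ := List.mem_map.1 hx
    have : q < 2 * w := by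
      have := (List.mem_filter.1 hq).1
      simpa using this
    exact (he3 q this).trans ((h1 w).trans_lt (hClt w))
  intro γ hγ
  obtain ⟨α, ⟨hα1, hα2, hα3⟩, hα4, hα5⟩ := (hD β hβD k 0 L hLlt).1 he4 γ hγ
  rw [hLlen] at hα3
  have hInitα : Init C α w = {x | ∃ i : Fin (2 * w), v i = false ∧ x = e i} := by
    ext x
    simp only [Init, Set.mem_ofPred_eq]
    constructor
    · rintro ⟨i, hi, rfl⟩
      have : C α i ∈ (List.range w).map (C α) := List.mem_map.2 ⟨i, by simpa using hi, rfl⟩
      rw [hα3, hL] at this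
      obtain ⟨q, hq, hq2⟩ := List.mem_map.1 this
      obtain ⟨hq3, hq4⟩ := List.mem_filter.1 hq
      have hq5 : q < 2 * w := by simpa using hq3
      have hq6 : ext v q = false := by simpa using hq4
      rw [ext_lt v hq5] at hq6
      exact ⟨⟨q, hq5⟩, hq6, hq2.symm⟩
    · rintro ⟨i, hi, rfl⟩
      have : e i ∈ L := by
        rw [hL]
        refine List.mem_map.2 ⟨i, List.mem_filter.2 ⟨by simp, ?_⟩, rfl⟩
        rw [ext_lt v i.2]; simpa using hi
      rw [← hα3] at this
      obtain ⟨j, hj, hj2⟩ := List.mem_map.1 this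
      exact ⟨j, by simpa using hj, hj2.symm⟩
  have hct : Nat.count (fun p => ext v p = true) (2 * w) = w := by
    have hcount : ∀ p, Nat.count (fun p => ext v p = true) p +
        Nat.count (fun p => ext v p = false) p = p := by
      intro p
      induction p with
      | zero => simp
      | succ p ih =>
        rw [Nat.count_succ, Nat.count_succ]
        cases h : ext v p <;> simp <;> omega
    have := hcount (2 * w)
    omega
  have hInitβ : Init C β w = {x | ∃ i : Fin (2 * w), v i = true ∧ x = e i} := by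
    ext x
    simp only [Init, Set.mem_ofPred_eq]
    constructor
    · rintro ⟨i, hi, rfl⟩
      have hi' : i < Nat.count (fun p => ext v p = true) (2 * w) := by
        rw [hct]; exact hi
      obtain ⟨q, h3, h4, h5⟩ := exists_of_lt_count _ hi'
      refine ⟨⟨q, h3⟩, ?_, ?_⟩
      · rw [← ext_lt v h3]; exact h4
      · rw [he2 _ h3 h4, h5]
    · rintro ⟨i, hi, rfl⟩
      have h4 : ext v i = true := by rw [ext_lt v i.2]; exact hi
      refine ⟨Nat.count (fun p => ext v p = true) i, ?_, he2 i i.2 h4⟩
      exact (Nat.count_strict_mono (p := fun p => ext v p = true) h4 i.2).trans_le hct.le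
  have hrel : HasRel (Init C α w) (Init C β w) v :=
    ⟨fun i => e i, fun i j hij => he1 i j hij j.2, hInitα, hInitβ⟩
  refine ⟨α, hα4, hα5, hα1, hα2, ?_, hvT _ _ hrel⟩
  rw [Set.disjoint_left]
  intro x hxα hxβ
  rw [hInitα] at hxα
  rw [hInitβ] at hxβ
  obtain ⟨i, hi, rfl⟩ := hxα
  obtain ⟨j, hj, hj2⟩ := hxβ
  have hinj : i = j := by
    rcases lt_trichotomy i j with h | h | h
    · exact absurd hj2 (he1 i j h j.2).ne
    · exact h
    · exact absurd hj2 (he1 j i h i.2).ne'
  rw [hinj, hj] at hi
  exact absurd hi (by simp)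

theorem strong_of_intervalHitting (h : IntervalHitting) :
    ∃ C, IsCSeq C ∧ ∀ t : ℕ → DisjType, StronglyGuessing C t := by
  obtain ⟨C, hC, hI⟩ := h
  by_contra hcon
  have hCn : ∀ n : ℕ, IsCSeq (fun α i => C α (i + n)) := by
    intro n α hα
    obtain ⟨h1, h2, h3⟩ := hC α hα
    refine ⟨fun i j hij => h1 (by omega), fun i => h2 _, fun γ hγ => ?_⟩
    obtain ⟨i, hi⟩ := h3 γ hγ
    exact ⟨i, hi.trans_le (h1.monotone (by omega))⟩
  have hfail : ∀ n : ℕ, ∃ (t : ℕ → DisjType) (f : Ordinal.{0} → ℕ),
      ¬ ∃ β k, IsLim β ∧ f β = k ∧ ∀ γ < β, ∃ α, γ < α ∧ α < β ∧ IsLim α ∧ f α = k ∧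
        Good (fun α i => C α (i + n)) (t k) α β := by
    intro n
    by_contra h2
    apply hcon
    refine ⟨_, hCn n, fun t f => ?_⟩
    by_contra h3
    exact h2 ⟨t, f, h3⟩
  choose t f hf using hfail
  obtain ⟨D, hD1, hD2⟩ := exists_club (I := ℕ × ℕ × ℕ)
    (fun i l => Sx (fun α j => C α (j + i.1)) (f i.1) i.2.1 i.2.2 l)
  obtain ⟨β, hβ, N, hN⟩ := hI D hD1
  have hδ : ∀ j : ℕ, ∃ δ ∈ D, C β (N + j) < δ ∧ δ ≤ C β (N + j + 1) :=
    fun j => hN (N + j) (by omega)
  choose δ hδD hδ1 hδ2 using hδ
  apply hf (N + 1)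
  refine ⟨β, f (N + 1) β, hβ, rfl, ?_⟩
  have := strong_of_spread (C := fun α i => C α (i + (N + 1))) (f := f (N + 1)) (t := t (N + 1))
    (hCn (N + 1)) hD1 (fun δ hδ k r l hl => hD2 δ hδ (N + 1, k, r) l hl) hβ δ hδD
    (fun j => by
      have := hδ2 j
      have e1 : j + (N + 1) = N + j + 1 := by omega
      rw [e1]; exact this)
    (fun j => by
      have := hδ1 (j + 1)
      have e1 : j + (N + 1) = N + (j + 1) := by omega
      rw [e1]; exact this)
  exact this

end Pool.Agent.E8helper19.Gs
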