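import Pool.Agent.E8helper19.Gs.Defs

/-!
If some `C`-sequence is guessing for a particular sequence of depth-one types, then interval
hitting holds.
-/

namespace Pool.Agent.E8helper19.Gs

open Ordinal Cardinal Set

/-- The values of the depth-one type `τ_m`: `a(0) < … < a(m) < b(0) < a(m+1) < b(1) < …`. -/
def tauVal (m : ℕ) (i : Fin (2 * (m + 2))) : Bool := !(decide (i.val ≤ m ∨ i.val = m + 2))

theorem tauVal_false {m : ℕ} {i : Fin (2 * (m + 2))} :
    tauVal m i = false ↔ (i.val ≤ m ∨ i.val = m + 2) := by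
  simp only [tauVal, Bool.not_eq_false', decide_eq_true_eq]

theorem tauVal_true {m : ℕ} {i : Fin (2 * (m + 2))} :
    tauVal m i = true ↔ (i.val = m + 1 ∨ m + 3 ≤ i.val) := by
  simp only [tauVal, Bool.not_eq_true', decide_eq_false_iff_not]
  omega

theorem tau_card (m : ℕ) :
    (Finset.univ.filter (fun i : Fin (2 * (m + 2)) => tauVal m i = false)).card = m + 2 := by
  have : (Finset.univ.filter (fun i : Fin (2 * (m + 2)) => tauVal m i = false)).map
      Fin.valEmbedding = insert (m + 2) (Finset.range (m + 1)) := by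
    ext x
    simp only [Finset.mem_map, Finset.mem_filter, Finset.mem_univ, true_and, Fin.valEmbedding_apply,
      Finset.mem_insert, Finset.mem_range, tauVal_false]
    constructor
    · rintro ⟨i, hi, rfl⟩; omega
    · intro h
      exact ⟨⟨x, by omega⟩, by simp; omega, rfl⟩
  rw [← Finset.card_map Fin.valEmbedding, this, Finset.card_insert_of_notMem (by simp),
    Finset.card_range]

/-- The depth-one type `τ_m`. -/
def tau (m : ℕ) : DisjType where
  width := m + 2
  one_le_width := by omega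
  val := tauVal m
  card_zeros := tau_card m

theorem tau_depth (m : ℕ) : (tau m).depth ≤ 1 := by
  apply Nat.sInf_le
  left
  refine ⟨(⟨m + 3, by omega⟩ : Fin (2 * (m + 2))), ⟨?_, ?_⟩, ?_⟩
  · change tauVal m _ = true
    rw [tauVal_true]; right; simp
  · have : {q : Fin (2 * (m + 2)) | q ∈ {i : Fin (2 * (m + 2)) | (tau m).val i = true} ∧
        q < (⟨m + 3, by omega⟩ : Fin (2 * (m + 2)))} = {(⟨m + 1, by omega⟩ : Fin (2 * (m + 2)))} := by
      ext q
      simp only [Set.mem_ofPred_eq, Set.mem_singleton_iff]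
      change (tauVal m q = true ∧ _) ↔ _
      rw [tauVal_true, Fin.lt_def, Fin.ext_iff]
      simp only
      omega
    exact (congrArg Set.ncard this).trans (Set.ncard_singleton _)
  · intro (q : Fin (2 * (m + 2))) (hq : tauVal m q = false)
    have hq' := tauVal_false.1 hq
    change q.val < m + 3
    omega

/-- What a pair in the relation `τ_m` looks like. -/
theorem tau_rel {C : Ordinal.{0} → ℕ → Ordinal.{0}} {m : ℕ} {α β : Ordinal.{0}}
    (hα : StrictMono (C α)) (hβ : StrictMono (C β))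
    (h : HasRel (Init C α (m + 2)) (Init C β (m + 2)) (tauVal m)) :
    C α m < C β 0 ∧ C β 0 < C α (m + 1) := by
  obtain ⟨e, he, ha, hb⟩ := h
  have h1 : C β 0 = e ⟨m + 1, by omega⟩ := by
    apply le_antisymm
    · have : e ⟨m + 1, by omega⟩ ∈ Init C β (m + 2) := by
        rw [hb]; exact ⟨_, by rw [tauVal_true]; left; rfl, rfl⟩
      obtain ⟨i, -, hi⟩ := this
      rw [hi]; exact hβ.monotone (Nat.zero_le _)
    · have : C β 0 ∈ Init C β (m + 2) := ⟨0, by omega, rfl⟩
      rw [hb] at this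
      obtain ⟨i, hi, hi2⟩ := this
      rw [hi2]
      apply he.monotone
      rw [tauVal_true] at hi
      rw [Fin.le_def]; simp only; omega
  have h2 : C α (m + 1) = e ⟨m + 2, by omega⟩ := by
    apply le_antisymm
    · have : C α (m + 1) ∈ Init C α (m + 2) := ⟨m + 1, by omega, rfl⟩
      rw [ha] at this
      obtain ⟨i, hi, hi2⟩ := this
      rw [hi2]
      apply he.monotone
      rw [tauVal_false] at hi
      rw [Fin.le_def]; simp only; omega
    · have : e ⟨m + 2, by omega⟩ ∈ Init C α (m + 2) := by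
        rw [ha]; exact ⟨_, by rw [tauVal_false]; right; rfl, rfl⟩
      obtain ⟨i, hi, hi2⟩ := this
      rw [hi2]; exact hα.monotone (by omega)
  constructor
  · have : C α m ∈ Init C α (m + 2) := ⟨m, by omega, rfl⟩
    rw [ha] at this
    obtain ⟨i, hi, hi2⟩ := this
    rw [tauVal_false] at hi
    rw [h1, hi2]
    apply he
    rw [Fin.lt_def]; simp only
    rcases hi with hi | hi
    · omega
    · exfalso
      have h3 : C α m = C α (m + 1) := by
        rw [h2, hi2]; congr 1; exact Fin.ext hi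
      exact absurd (hα.injective h3) (by omega)
  · rw [h1, h2]
    apply he
    rw [Fin.lt_def]; simp

theorem hasRel_swap {N : ℕ} {a b : Set Ordinal.{0}} {v : Fin N → Bool}
    (h : HasRel a b (fun i => !(v i))) : HasRel b a v := by
  obtain ⟨e, he, ha, hb⟩ := h
  refine ⟨e, he, ?_, ?_⟩
  · rw [hb]; ext x; simp
  · rw [ha]; ext x; simp

/-- The sequence of types: `τ_m` is repeated infinitely often, indexed by codes. -/
noncomputable def tseq (k : ℕ) : DisjType :=
  match (Encodable.decode (α := ℕ × ((ℕ × Bool) ⊕ ℕ)) k) with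
  | some (m, _) => tau m
  | none => tau 0

theorem tseq_encode (p : ℕ × ((ℕ × Bool) ⊕ ℕ)) : tseq (Encodable.encode p) = tau p.1 := by
  unfold tseq
  rw [Encodable.encodek]

theorem tseq_depth (k : ℕ) : (tseq k).depth ≤ 1 := by
  unfold tseq
  split <;> exact tau_depth _

theorem exists_reals : ∃ r : Ordinal.{0} → (ℕ → Bool), ∀ x < ω₁, ∀ y < ω₁, r x = r y → x = y := by
  have h : #(Set.Iio ω₁ : Set Ordinal.{0}) ≤ Cardinal.lift.{1} #(ℕ → Bool) := by
    rw [Cardinal.mk_Iio_ordinal]
    simp only [Cardinal.lift_le]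
    rw [Ordinal.card_omega]
    have : #(ℕ → Bool) = Cardinal.continuum := by simp
    rw [this]
    exact Cardinal.aleph_one_le_continuum
  rw [← Cardinal.lift_id'.{0,1} #(Set.Iio ω₁ : Set Ordinal.{0})] at h
  have h' : Cardinal.lift.{0} #(Set.Iio ω₁ : Set Ordinal.{0}) ≤ Cardinal.lift.{1} #(ℕ → Bool) := by
    simpa using h
  obtain ⟨g⟩ := Cardinal.lift_mk_le'.1 h'
  classical
  refine ⟨fun x => if hx : x < ω₁ then g ⟨x, hx⟩ else fun _ => false, ?_⟩
  intro x hx y hy hxy
  simp only [hx, hy, dif_pos] at hxy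
  have := g.injective hxy
  exact congrArg Subtype.val this

theorem exists_enum (η : Ordinal.{0}) (h : η < ω₁) :
    ∃ e : Ordinal.{0} → ℕ, ∀ x ≤ η, ∀ y ≤ η, e x = e y → x = y := by
  have h2 : (Set.Iic η).Countable := by
    rw [← Cardinal.le_aleph0_iff_set_countable]
    have : Set.Iic η = Set.Iio (Order.succ η) := by
      ext x; simp
    rw [this, Cardinal.mk_Iio_ordinal]
    have h3 : Order.succ η < ω₁ := (isSuccLimit_omega 1).succ_lt h
    have h4 := Cardinal.lt_ord.1 (by rwa [Cardinal.ord_aleph] : Order.succ η < (ℵ₁).ord)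
    have h5 : (Order.succ η).card ≤ ℵ₀ := by
      rw [← Cardinal.succ_aleph0] at h4
      exact Order.lt_succ_iff.1 h4
    have h6 := Cardinal.lift_le_aleph0.{0, 1}.2 h5
    exact h6
  obtain ⟨e, he⟩ := Set.countable_iff_exists_injOn.1 h2
  exact ⟨e, fun x hx y hy hxy => he hx hy hxy⟩

theorem intervalHitting_of_guessing
    (h : ∃ C, IsCSeq C ∧ Guessing C tseq) : IntervalHitting := by
  obtain ⟨C, hC, hG⟩ := h
  by_contra hN
  have hD : ∃ D, IsClub D ∧ ∀ α, IsLim α → ∀ N : ℕ, ∃ m ≥ N,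
      ∀ δ ∈ D, C α m < δ → ¬ δ ≤ C α (m + 1) := by
    by_contra hcon
    apply hN
    refine ⟨C, hC, fun D hD => ?_⟩
    by_contra h2
    apply hcon
    refine ⟨D, hD, fun α hα N => ?_⟩
    by_contra h3
    apply h2
    refine ⟨α, hα, N, fun m hm => ?_⟩
    by_contra h4
    apply h3
    exact ⟨m, hm, fun δ hδ h5 h6 => h4 ⟨δ, hδ, h5, h6⟩⟩
  obtain ⟨D, ⟨hD1, hD2, hD3⟩, hDm⟩ := hD
  -- next element of D
  set nx : Ordinal.{0} → Ordinal.{0} := fun x => sInf {δ | δ ∈ D ∧ x < δ} with hnx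
  have nx_mem : ∀ x < ω₁, nx x ∈ D ∧ x < nx x := by
    intro x hx
    obtain ⟨δ, h1, h2⟩ := hD2 x hx
    exact csInf_mem (s := {δ | δ ∈ D ∧ x < δ}) ⟨δ, h1, h2⟩
  have nx_mono : ∀ x y, x ≤ y → y < ω₁ → nx x ≤ nx y := by
    intro x y hxy hy
    obtain ⟨h1, h2⟩ := nx_mem y hy
    exact csInf_le' (s := {δ | δ ∈ D ∧ x < δ}) ⟨h1, hxy.trans_lt h2⟩
  have nx_eq : ∀ x y, x ≤ y → y < ω₁ → (∀ δ ∈ D, x < δ → ¬ δ ≤ y) → nx x = nx y := by
    intro x y hxy hy hno
    apply le_antisymm (nx_mono x y hxy hy)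
    obtain ⟨h1, h2⟩ := nx_mem x (hxy.trans_lt hy)
    exact csInf_le' (s := {δ | δ ∈ D ∧ y < δ}) ⟨h1, not_le.1 (hno _ h1 h2)⟩
  have nx_lt : ∀ x < ω₁, nx x < ω₁ := fun x hx => hD1 _ (nx_mem x hx).1
  obtain ⟨r, hr⟩ := exists_reals
  have henum : ∀ η : Ordinal.{0}, ∃ e : Ordinal.{0} → ℕ, η < ω₁ →
      ∀ x ≤ η, ∀ y ≤ η, e x = e y → x = y := by
    intro η
    by_cases hη : η < ω₁
    · obtain ⟨e, he⟩ := exists_enum η hη
      exact ⟨e, fun _ => he⟩
    · exact ⟨fun _ => 0, fun h => absurd h hη⟩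
  choose en hen using henum
  have hClt : ∀ α, IsLim α → ∀ i, C α i < ω₁ := fun α hα i =>
    ((hC α hα).2.1 i).trans hα.1
  -- the colouring
  have hcol : ∀ α, ∃ p : ℕ × ((ℕ × Bool) ⊕ ℕ), IsLim α →
      (∃ m n, p = (m, Sum.inl (n, r (nx (C α 0)) n)) ∧
        r (nx (C α 0)) n ≠ r (nx (C α m)) n ∧ nx (C α m) = nx (C α (m + 1))) ∨
      (p = (0, Sum.inr (en (nx (C α 0)) α)) ∧ ∀ m, nx (C α m) = nx (C α 0)) := by
    intro α
    by_cases hα : IsLim α
    · by_cases hdeg : ∀ m, nx (C α m) = nx (C α 0)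
      · exact ⟨_, fun _ => Or.inr ⟨rfl, hdeg⟩⟩
      · push Not at hdeg
        obtain ⟨M, hM⟩ := hdeg
        obtain ⟨m, hm, hmiss⟩ := hDm α hα M
        have hmono := (hC α hα).1
        have hlt : nx (C α 0) < nx (C α M) :=
          lt_of_le_of_ne (nx_mono _ _ (hmono.monotone (Nat.zero_le _)) (hClt α hα _)) hM.symm
        have hle : nx (C α M) ≤ nx (C α m) := nx_mono _ _ (hmono.monotone hm) (hClt α hα _)
        have hne : r (nx (C α 0)) ≠ r (nx (C α m)) := by
          intro heq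
          have := hr _ (nx_lt _ (hClt α hα _)) _ (nx_lt _ (hClt α hα _)) heq
          exact absurd this (hlt.trans_le hle).ne
        obtain ⟨n, hn⟩ := Function.ne_iff.1 hne
        exact ⟨_, fun _ => Or.inl ⟨m, n, rfl, hn,
          nx_eq _ _ (hmono.monotone (Nat.le_succ _)) (hClt α hα _) hmiss⟩⟩
    · exact ⟨(0, Sum.inr 0), fun h => absurd h hα⟩
  choose p hp using hcol
  obtain ⟨α, β, k, hα, hβ, hαβ, hfα, hfβ, -, hT⟩ := hG (fun x => Encodable.encode (p x))
  have hpe : p α = p β := by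
    apply Encodable.encode_injective
    simpa using hfα.trans hfβ.symm
  -- the key contradiction, symmetric in the two roles
  have key : ∀ α β : Ordinal.{0}, IsLim α → IsLim β → α ≠ β → p α = p β →
      ¬ HasRel (Init C α ((p α).1 + 2)) (Init C β ((p α).1 + 2)) (tauVal (p α).1) := by
    intro α β hα hβ hne hpe hrel
    obtain ⟨h1, h2⟩ := tau_rel (hC α hα).1 (hC β hβ).1 hrel
    have hβ0 := hClt β hβ 0
    rcases hp α hα with ⟨m, n, e1, e2, e3⟩ | ⟨e1, e2⟩
    · have hm : (p α).1 = m := by rw [e1]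
      rw [hm] at h1 h2
      have h3 : nx (C β 0) = nx (C α m) := by
        apply le_antisymm
        · rw [e3]; exact nx_mono _ _ h2.le (hClt α hα _)
        · exact nx_mono _ _ h1.le hβ0
      rcases hp β hβ with ⟨m', n', e1', e2', e3'⟩ | ⟨e1', e2'⟩
      · have h4 : p α = (m', Sum.inl (n', r (nx (C β 0)) n')) := by rw [hpe, e1']
        rw [e1] at h4
        simp only [Prod.mk.injEq, Sum.inl.injEq] at h4
        obtain ⟨-, h5, h6⟩ := h4
        subst h5
        apply e2
        rw [h6, h3]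
      · rw [hpe, e1'] at e1
        simp at e1
    · have hm : (p α).1 = 0 := by rw [e1]
      rw [hm] at h1 h2
      rcases hp β hβ with ⟨m', n', e1', e2', e3'⟩ | ⟨e1', e2'⟩
      · rw [hpe, e1'] at e1
        simp at e1
      · have h3 : nx (C β 0) = nx (C α 0) := by
          apply le_antisymm
          · rw [← e2 (0 + 1)]; exact nx_mono _ _ h2.le (hClt α hα _)
          · exact nx_mono _ _ h1.le hβ0
        have h4 : p α = (0, Sum.inr (en (nx (C β 0)) β)) := by rw [hpe, e1']
        rw [e1, h3] at h4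
        simp only [Prod.mk.injEq, Sum.inr.injEq, true_and] at h4
        have hle : ∀ γ, IsLim γ → (∀ m, nx (C γ m) = nx (C γ 0)) → γ ≤ nx (C γ 0) := by
          intro γ hγ hdeg
          by_contra hcon
          obtain ⟨i, hi⟩ := (hC γ hγ).2.2 _ (not_le.1 hcon)
          have := (nx_mem _ (hClt γ hγ i)).2
          rw [hdeg i] at this
          exact absurd hi this.le.not_gt
        apply hne
        apply hen (nx (C α 0)) (nx_lt _ (hClt α hα 0)) _ (hle α hα e2) _ _ h4
        rw [← h3]; exact hle β hβ e2'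
  have hk : tseq k = tau (p α).1 := by
    rw [← hfα]; exact tseq_encode _
  rw [hk] at hT
  rcases hT with hT | hT
  · exact key α β hα hβ hαβ.ne hpe hT
  · have := hasRel_swap hT
    have h2 := key β α hβ hα hαβ.ne' hpe.symm
    rw [← hpe] at h2
    exact h2 this

end Pool.Agent.E8helper19.Gs
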