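import Pool.Agent.E8helper19.Gs.Defs

/-!
Interval hitting gives a `C`-sequence which is strongly `t`-guessing for every `t`.
-/

namespace Pool.Agent.E8helper19.Gs

open Ordinal Cardinal Set

/-- Unbounded in `ω₁`. -/
def Unb (S : Set Ordinal.{0}) : Prop := ∀ γ < ω₁, ∃ x ∈ S, γ < x ∧ x < ω₁

/-- The tree of possible initial segments. -/
def Sx (C : Ordinal.{0} → ℕ → Ordinal.{0}) (f : Ordinal.{0} → ℕ) (k : ℕ) :
    ℕ → List Ordinal.{0} → Set Ordinal.{0}
  | 0, l => {α | IsLim α ∧ f α = k ∧ (List.range l.length).map (C α) = l}
  | r + 1, l => {x | Unb (Sx C f k r (l ++ [x]))}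

/-- The closure property of a countable ordinal. -/
def Cl {I : Type} (F : I → List Ordinal.{0} → Set Ordinal.{0}) (δ : Ordinal.{0}) : Prop :=
  ∀ i l, (∀ x ∈ l, x < δ) → (Unb (F i l) → ∀ γ < δ, ∃ x ∈ F i l, γ < x ∧ x < δ) ∧
    (¬ Unb (F i l) → ∀ x ∈ F i l, x < ω₁ → x < δ)

theorem countable_Iio {γ : Ordinal.{0}} (h : γ < ω₁) : Countable (Set.Iio γ) := by
  rw [← Cardinal.mk_le_aleph0_iff, Cardinal.mk_Iio_ordinal]
  have h4 := Cardinal.lt_ord.1 (by rwa [Cardinal.ord_aleph] : γ < (ℵ₁).ord)
  have h5 : γ.card ≤ ℵ₀ := by
    rw [← Cardinal.succ_aleph0] at h4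
    exact Order.lt_succ_iff.1 h4
  exact Cardinal.lift_le_aleph0.{0, 1}.2 h5

theorem exists_step {I : Type} [Countable I] (F : I → List Ordinal.{0} → Set Ordinal.{0})
    {γ : Ordinal.{0}} (hγ : γ < ω₁) :
    ∃ g, γ < g ∧ g < ω₁ ∧ ∀ i l, (∀ x ∈ l, x < γ) →
      (Unb (F i l) → ∃ x ∈ F i l, γ < x ∧ x < g) ∧
      (¬ Unb (F i l) → ∀ x ∈ F i l, x < ω₁ → x < g) := by
  have := countable_Iio hγ
  have h1 : ∀ i l, ∃ b, b < ω₁ ∧ (Unb (F i l) → ∃ x ∈ F i l, γ < x ∧ x < b) ∧
      (¬ Unb (F i l) → ∀ x ∈ F i l, x < ω₁ → x < b) := by
    intro i l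
    by_cases hU : Unb (F i l)
    · obtain ⟨x, hx, h2, h3⟩ := hU γ hγ
      exact ⟨Order.succ x, (isSuccLimit_omega 1).succ_lt h3,
        fun _ => ⟨x, hx, h2, Order.lt_succ x⟩, fun h => absurd hU h⟩
    · have hU' := hU
      unfold Unb at hU'
      push Not at hU'
      obtain ⟨c, hc, h2⟩ := hU'
      refine ⟨Order.succ c, (isSuccLimit_omega 1).succ_lt hc, fun h => absurd h hU, ?_⟩
      intro _ x hx hx1
      by_contra h3
      have h4 : c < x := (Order.lt_succ c).trans_le (not_lt.1 h3)
      exact absurd hx1 (h2 x hx h4).not_gt
  choose b hb1 hb2 hb3 using h1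
  set J := I × List (Set.Iio γ)
  set B : J → Ordinal.{0} := fun j => b j.1 (j.2.map Subtype.val) with hB
  set s := ⨆ j, B j with hs
  have hs1 : s < ω₁ := Ordinal.iSup_lt_omega_one (fun j => hb1 _ _)
  refine ⟨max s (Order.succ γ), lt_max_of_lt_right (Order.lt_succ γ),
    max_lt hs1 ((isSuccLimit_omega 1).succ_lt hγ), ?_⟩
  intro i l hl
  have hle : b i l ≤ s := by
    have : B (i, l.attachWith (fun x => x ∈ Set.Iio γ) (fun x hx => Set.mem_Iio.2 (hl x hx)))
        = b i l := congrArg (b i) (List.attachWith_map_subtype_val _)
    rw [← this]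
    exact Ordinal.le_iSup B _
  refine ⟨fun hU => ?_, fun hU x hx hx1 => ?_⟩
  · obtain ⟨x, hx, h2, h3⟩ := hb2 i l hU
    exact ⟨x, hx, h2, lt_max_of_lt_left (h3.trans_le hle)⟩
  · exact lt_max_of_lt_left ((hb3 i l hU x hx hx1).trans_le hle)

theorem exists_bound (l : List Ordinal.{0}) {η : Ordinal.{0}} (hη : 0 < η) (hl : ∀ x ∈ l, x < η) :
    ∃ c < η, ∀ x ∈ l, x ≤ c := by
  induction l with
  | nil => exact ⟨0, hη, by simp⟩
  | cons a l ih =>
    obtain ⟨c, hc, h⟩ := ih (fun x hx => hl x (List.mem_cons_of_mem _ hx))
    refine ⟨max a c, max_lt (hl a List.mem_cons_self) hc, ?_⟩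
    intro x hx
    rcases List.mem_cons.1 hx with rfl | hx
    · exact le_max_left _ _
    · exact (h x hx).trans (le_max_right _ _)

theorem exists_club {I : Type} [Countable I] (F : I → List Ordinal.{0} → Set Ordinal.{0}) :
    ∃ D, IsClub D ∧ ∀ δ ∈ D, Cl F δ := by
  refine ⟨{δ | IsLim δ ∧ Cl F δ}, ⟨fun δ hδ => hδ.1.1, ?_, ?_⟩, fun δ hδ => hδ.2⟩
  · intro γ0 hγ0
    have hstep : ∀ γ : Ordinal.{0}, ∃ g, γ < ω₁ → γ < g ∧ g < ω₁ ∧ ∀ i l, (∀ x ∈ l, x < γ) →
      (Unb (F i l) → ∃ x ∈ F i l, γ < x ∧ x < g) ∧
      (¬ Unb (F i l) → ∀ x ∈ F i l, x < ω₁ → x < g) := by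
      intro γ
      by_cases hγ : γ < ω₁
      · obtain ⟨g, hg⟩ := exists_step F hγ
        exact ⟨g, fun _ => hg⟩
      · exact ⟨0, fun h => absurd h hγ⟩
    choose g hg using hstep
    set u : ℕ → Ordinal.{0} := fun n => g^[n] γ0 with hu
    have hu1 : ∀ n, u n < ω₁ := by
      intro n
      induction n with
      | zero => exact hγ0
      | succ n ih =>
        have : u (n + 1) = g (u n) := by simp only [hu, Function.iterate_succ_apply']
        rw [this]
        exact (hg _ ih).2.1
    have hus : ∀ n, u (n + 1) = g (u n) := fun n => by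
      simp only [hu, Function.iterate_succ_apply']
    have hmono : StrictMono u := strictMono_nat_of_lt_succ (fun n => by
      rw [hus]; exact (hg _ (hu1 n)).1)
    set η := ⨆ n, u n with hη
    have hη1 : η < ω₁ := Ordinal.iSup_lt_omega_one hu1
    have hult : ∀ n, u n < η := fun n =>
      (hmono (Nat.lt_succ_self n)).trans_le (Ordinal.le_iSup u (n + 1))
    have hlt : ∀ c < η, ∃ n, c < u n := fun c hc => Ordinal.lt_iSup_iff.1 hc
    have hlim : IsLim η := by
      refine ⟨hη1, ?_⟩
      rw [Order.isSuccLimit_iff]
      refine ⟨?_, ?_⟩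
      · intro hmin
        exact absurd (hult 0) (hmin.not_lt)
      · rw [Order.isSuccPrelimit_iff_succ_lt]
        intro c hc
        obtain ⟨n, hn⟩ := hlt c hc
        exact (Order.succ_le_of_lt hn).trans_lt (hult n)
    refine ⟨η, ⟨hlim, ?_⟩, hult 0⟩
    intro i l hl
    have hpos : 0 < η := (zero_le).trans_lt (hult 0)
    obtain ⟨c, hc, hlc⟩ := exists_bound l hpos hl
    obtain ⟨n, hn⟩ := hlt c hc
    refine ⟨fun hU γ hγ => ?_, fun hU x hx hx1 => ?_⟩
    · obtain ⟨m, hm⟩ := hlt γ hγ
      have h1 : ∀ x ∈ l, x < u (max n m) := fun x hx =>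
        ((hlc x hx).trans_lt hn).trans_le (hmono.monotone (le_max_left _ _))
      obtain ⟨x, hx, h2, h3⟩ := ((hg _ (hu1 (max n m))).2.2 i l h1).1 hU
      refine ⟨x, hx, ?_, ?_⟩
      · exact (hm.trans_le (hmono.monotone (le_max_right n m))).trans h2
      · rw [← hus] at h3
        exact h3.trans (hult _)
    · have h1 : ∀ x ∈ l, x < u n := fun x hx => (hlc x hx).trans_lt hn
      have h2 := ((hg _ (hu1 n)).2.2 i l h1).2 hU x hx hx1
      rw [← hus] at h2
      exact h2.trans (hult _)
  · intro η hη hD
    refine ⟨hη, ?_⟩
    intro i l hl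
    have hpos : 0 < η := by
      rw [pos_iff_ne_zero]
      intro h0
      exact hη.2.1 (by rw [h0]; exact isMin_bot)
    obtain ⟨c, hc, hlc⟩ := exists_bound l hpos hl
    refine ⟨fun hU γ hγ => ?_, fun hU x hx hx1 => ?_⟩
    · obtain ⟨δ, ⟨hδ1, hδ2⟩, h1, h2⟩ := hD (max c γ) (max_lt hc hγ)
      obtain ⟨x, hx, h3, h4⟩ := (hδ2 i l (fun x hx =>
        (hlc x hx).trans_lt ((le_max_left _ _).trans_lt h1))).1 hU γ
        ((le_max_right _ _).trans_lt h1)
      exact ⟨x, hx, h3, h4.trans h2⟩
    · obtain ⟨δ, ⟨hδ1, hδ2⟩, h1, h2⟩ := hD c hc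
      exact ((hδ2 i l (fun x hx => (hlc x hx).trans_lt h1)).2 hU x hx hx1).trans h2


/-- Extend the values of a type to all of `ℕ`. -/
def ext {N : ℕ} (v : Fin N → Bool) (p : ℕ) : Bool := if h : p < N then v ⟨p, h⟩ else false

theorem ext_lt {N : ℕ} (v : Fin N → Bool) {p : ℕ} (h : p < N) : ext v p = v ⟨p, h⟩ := by
  simp [ext, h]

/-- The construction of a partner for `β`. -/
theorem build {C : Ordinal.{0} → ℕ → Ordinal.{0}} {f : Ordinal.{0} → ℕ} {k w : ℕ}
    {v : Fin (2 * w) → Bool} (hw : 1 ≤ w)
    (h0 : v ⟨0, by omega⟩ = true)
    (hz : Nat.count (fun p => ext v p = false) (2 * w) = w)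
    (b δ : ℕ → Ordinal.{0}) (hb : ∀ j, b j < δ (j + 1)) (hδ : ∀ j, δ j ≤ b j)
    (hcl : ∀ j r l, (∀ x ∈ l, x < δ j) → Unb (Sx C f k r l) →
      ∀ γ < δ j, ∃ x ∈ Sx C f k r l, γ < x ∧ x < δ j)
    (hstart : Unb (Sx C f k w [])) :
    ∃ (e : ℕ → Ordinal.{0}), (∀ q q', q < q' → q' < 2 * w → e q < e q') ∧
      (∀ q < 2 * w, ext v q = true → e q = b (Nat.count (fun p => ext v p = true) q)) ∧
      (∀ q < 2 * w, e q < δ w) ∧
      Unb (Sx C f k 0 (((List.range (2 * w)).filter (fun q => ext v q = false)).map e)) := by
  have hcount : ∀ p, Nat.count (fun p => ext v p = true) p +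
      Nat.count (fun p => ext v p = false) p = p := by
    intro p
    induction p with
    | zero => simp
    | succ p ih =>
      rw [Nat.count_succ, Nat.count_succ]
      cases h : ext v p <;> simp <;> omega
  have hmain : ∀ p, 1 ≤ p → p ≤ 2 * w → ∃ (e : ℕ → Ordinal.{0}),
      (∀ q q', q < q' → q' < p → e q < e q') ∧
      (∀ q < p, ext v q = true → e q = b (Nat.count (fun p => ext v p = true) q)) ∧
      (∀ q < p, e q < δ (Nat.count (fun p => ext v p = true) p)) ∧
      Unb (Sx C f k (w - Nat.count (fun p => ext v p = false) p)
        (((List.range p).filter (fun q => ext v q = false)).map e)) := by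
    intro p hp1
    induction p, hp1 using Nat.le_induction with
    | base =>
      intro _
      have h0' : ext v 0 = true := by rw [ext_lt v (by omega : 0 < 2 * w)]; exact h0
      refine ⟨fun _ => b 0, ?_, ?_, ?_, ?_⟩
      · intro q q' h1 h2; omega
      · intro q hq _
        have : q = 0 := by omega
        subst this
        simp
      · intro q hq
        have : Nat.count (fun p => ext v p = true) 1 = 1 := by
          rw [Nat.count_succ]; simp [h0']
        rw [this]; exact hb 0
      · have : Nat.count (fun p => ext v p = false) 1 = 0 := by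
          rw [Nat.count_succ]; simp [h0']
        rw [this]
        have h2 : (List.range 1).filter (fun q => ext v q = false) = [] := by
          simp [List.range_succ, h0']
        rw [h2]
        simpa using hstart
    | succ p hp1 ih =>
      intro hp2
      obtain ⟨e, he1, he2, he3, he4⟩ := ih (by omega)
      cases hv : ext v p with
      | true =>
        have hc1 : Nat.count (fun p => ext v p = true) (p + 1) =
            Nat.count (fun p => ext v p = true) p + 1 := by
          rw [Nat.count_succ]; simp [hv]
        have hc2 : Nat.count (fun p => ext v p = false) (p + 1) =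
            Nat.count (fun p => ext v p = false) p := by
          rw [Nat.count_succ]; simp [hv]
        refine ⟨Function.update e p (b (Nat.count (fun p => ext v p = true) p)), ?_, ?_, ?_, ?_⟩
        · intro q q' h1 h2
          rcases Nat.lt_succ_iff_lt_or_eq.1 h2 with h3 | h3
          · rw [Function.update_of_ne (by omega), Function.update_of_ne (by omega)]
            exact he1 q q' h1 h3
          · subst h3
            rw [Function.update_of_ne (by omega), Function.update_self]
            exact (he3 q h1).trans_le (hδ _)
        · intro q hq hq2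
          rcases Nat.lt_succ_iff_lt_or_eq.1 hq with h3 | h3
          · rw [Function.update_of_ne (by omega)]
            exact he2 q h3 hq2
          · subst h3
            rw [Function.update_self]
        · intro q hq
          rw [hc1]
          rcases Nat.lt_succ_iff_lt_or_eq.1 hq with h3 | h3
          · rw [Function.update_of_ne (by omega)]
            exact ((he3 q h3).trans_le (hδ _)).trans (hb _)
          · subst h3
            rw [Function.update_self]
            exact hb _
        · rw [hc2]
          have h2 : (List.range (p + 1)).filter (fun q => ext v q = false) =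
              (List.range p).filter (fun q => ext v q = false) := by
            rw [List.range_succ, List.filter_append]
            simp [hv]
          rw [h2]
          have h3 : ((List.range p).filter (fun q => ext v q = false)).map
              (Function.update e p (b (Nat.count (fun p => ext v p = true) p))) =
              ((List.range p).filter (fun q => ext v q = false)).map e := by
            apply List.map_congr_left
            intro q hq
            have : q < p := by
              have := (List.mem_filter.1 hq).1
              simpa using this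
            rw [Function.update_of_ne (by omega)]
          rw [h3]; exact he4
      | false =>
        have hc1 : Nat.count (fun p => ext v p = true) (p + 1) =
            Nat.count (fun p => ext v p = true) p := by
          rw [Nat.count_succ]; simp [hv]
        have hc2 : Nat.count (fun p => ext v p = false) (p + 1) =
            Nat.count (fun p => ext v p = false) p + 1 := by
          rw [Nat.count_succ]; simp [hv]
        have hlt : Nat.count (fun p => ext v p = false) p < w := by
          have h5 : Nat.count (fun p => ext v p = false) (p + 1) ≤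
            Nat.count (fun p => ext v p = false) (2 * w) := Nat.count_monotone _ hp2
          omega
        obtain ⟨r, hr⟩ : ∃ r, w - Nat.count (fun p => ext v p = false) p = r + 1 :=
          ⟨w - Nat.count (fun p => ext v p = false) p - 1, by omega⟩
        rw [hr] at he4
        have hl : ∀ x ∈ ((List.range p).filter (fun q => ext v q = false)).map e,
            x < δ (Nat.count (fun p => ext v p = true) p) := by
          intro x hx
          obtain ⟨q, hq, rfl⟩ := List.mem_map.1 hx
          have : q < p := by
            have := (List.mem_filter.1 hq).1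
            simpa using this
          exact he3 q this
        obtain ⟨x, hx, hx1, hx2⟩ := hcl _ (r + 1) _ hl he4 (e (p - 1)) (he3 (p - 1) (by omega))
        refine ⟨Function.update e p x, ?_, ?_, ?_, ?_⟩
        · intro q q' h1 h2
          rcases Nat.lt_succ_iff_lt_or_eq.1 h2 with h3 | h3
          · rw [Function.update_of_ne (by omega), Function.update_of_ne (by omega)]
            exact he1 q q' h1 h3
          · subst h3
            rw [Function.update_of_ne (by omega), Function.update_self]
            rcases Nat.lt_or_ge q (q' - 1) with h4 | h4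
            · exact (he1 q (q' - 1) h4 (by omega)).trans hx1
            · have : q = q' - 1 := by omega
              rw [this]; exact hx1
        · intro q hq hq2
          rcases Nat.lt_succ_iff_lt_or_eq.1 hq with h3 | h3
          · rw [Function.update_of_ne (by omega)]
            exact he2 q h3 hq2
          · subst h3
            rw [hv] at hq2; exact absurd hq2 (by simp)
        · intro q hq
          rw [hc1]
          rcases Nat.lt_succ_iff_lt_or_eq.1 hq with h3 | h3
          · rw [Function.update_of_ne (by omega)]
            exact he3 q h3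
          · subst h3
            rw [Function.update_self]
            exact hx2
        · rw [hc2]
          have h2 : (List.range (p + 1)).filter (fun q => ext v q = false) =
              (List.range p).filter (fun q => ext v q = false) ++ [p] := by
            rw [List.range_succ, List.filter_append]
            simp [hv]
          rw [h2, List.map_append]
          have h3 : ((List.range p).filter (fun q => ext v q = false)).map
              (Function.update e p x) =
              ((List.range p).filter (fun q => ext v q = false)).map e := by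
            apply List.map_congr_left
            intro q hq
            have : q < p := by
              have := (List.mem_filter.1 hq).1
              simpa using this
            rw [Function.update_of_ne (by omega)]
          rw [h3]
          have h4 : List.map (Function.update e p x) [p] = [x] := by simp
          rw [h4]
          have h5 : w - (Nat.count (fun p => ext v p = false) p + 1) = r := by omega
          rw [h5]
          exact hx
  obtain ⟨e, he1, he2, he3, he4⟩ := hmain (2 * w) (by omega) le_rfl
  have hc : Nat.count (fun p => ext v p = true) (2 * w) = w := by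
    have := hcount (2 * w)
    omega
  rw [hc] at he3
  rw [hz, Nat.sub_self] at he4
  exact ⟨e, he1, he2, he3, he4⟩

end Pool.Agent.E8helper19.Gs
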